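import Mathlib
import Pool.Agent.helper50.MA.Spec1

set_option autoImplicit false

open MeasureTheory Set Filter Topology Complex
open scoped ContDiff Real

namespace MAP

theorem B5_continuous_nsq : Continuous nsq := by
  unfold nsq
  fun_prop

theorem B5_isOpen_bal (c : C2) (r : ℝ) : IsOpen (bal c r) := by
  unfold bal
  exact isOpen_lt (B5_continuous_nsq.comp (continuous_id.sub continuous_const)) continuous_const

/-- value of the quadratic pluriharmonic polynomial -/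
noncomputable def B5_p (a : ℝ) (G0 : C2 →L[ℝ] ℝ) (A : C2 →L[ℝ] (C2 →L[ℝ] ℝ)) (x0 x : C2) : ℝ :=
  a + G0 (x - x0) + (1 / 4) * (A (x - x0) (x - x0) - A (I • (x - x0)) (I • (x - x0)))

theorem B5_exp (θ : ℝ) (ξ : C2) : cexp (θ * I) • ξ = Real.cos θ • ξ + Real.sin θ • (I • ξ) := by
  rw [Complex.exp_mul_I, add_smul, mul_smul, ← Complex.ofReal_cos, ← Complex.ofReal_sin]
  rfl

theorem B5_mean (a : ℝ) (G0 : C2 →L[ℝ] ℝ) (A : C2 →L[ℝ] (C2 →L[ℝ] ℝ)) (x0 x ξ : C2) :
    mean (B5_p a G0 A x0) x ξ = B5_p a G0 A x0 x := by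
  have hII : ∀ y : C2, I • (I • y) = -y := by
    intro y
    rw [smul_smul, Complex.I_mul_I, neg_one_smul]
  have key : ∀ θ : ℝ, B5_p a G0 A x0 (x + cexp (θ * I) • ξ) =
      B5_p a G0 A x0 x
      + (G0 ξ + (1 / 4) * (A (x - x0) ξ + A ξ (x - x0) - A (I • (x - x0)) (I • ξ)
          - A (I • ξ) (I • (x - x0)))) * Real.cos θ
      + (G0 (I • ξ) + (1 / 4) * (A (x - x0) (I • ξ) + A (I • ξ) (x - x0) + A (I • (x - x0)) ξ
          + A ξ (I • (x - x0)))) * Real.sin θ
      + ((1 / 4) * (A ξ ξ - A (I • ξ) (I • ξ))) * (Real.cos θ ^ 2 - Real.sin θ ^ 2)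
      + ((1 / 4) * (A ξ (I • ξ) + A (I • ξ) ξ)) * (2 * (Real.sin θ * Real.cos θ)) := by
    intro θ
    have e1 : x + cexp (θ * I) • ξ - x0 = (x - x0) + (Real.cos θ • ξ + Real.sin θ • (I • ξ)) := by
      rw [B5_exp]; abel
    have e2 : I • ((x - x0) + (Real.cos θ • ξ + Real.sin θ • (I • ξ))) =
        I • (x - x0) + (Real.cos θ • (I • ξ) - Real.sin θ • ξ) := by
      rw [smul_add, smul_add, smul_comm I (Real.cos θ) ξ, smul_comm I (Real.sin θ) (I • ξ), hII]
      rw [smul_neg, ← sub_eq_add_neg]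
    unfold B5_p
    rw [e1, e2]
    simp only [map_add, map_sub, map_smul, add_apply, sub_apply,
      smul_apply, smul_eq_mul]
    ring
  unfold mean
  simp only [key]
  set p0 := B5_p a G0 A x0 x
  set α := (G0 ξ + (1 / 4) * (A (x - x0) ξ + A ξ (x - x0) - A (I • (x - x0)) (I • ξ)
          - A (I • ξ) (I • (x - x0))))
  set β := (G0 (I • ξ) + (1 / 4) * (A (x - x0) (I • ξ) + A (I • ξ) (x - x0) + A (I • (x - x0)) ξ
          + A ξ (I • (x - x0))))
  set γ := ((1 / 4) * (A ξ ξ - A (I • ξ) (I • ξ)))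
  set δ := ((1 / 4) * (A ξ (I • ξ) + A (I • ξ) ξ))
  have hd : ∀ θ : ℝ, HasDerivAt (fun θ : ℝ => p0 * θ + α * Real.sin θ - β * Real.cos θ
      + γ * (Real.sin θ * Real.cos θ) + δ * (Real.sin θ ^ 2))
      (p0 + α * Real.cos θ + β * Real.sin θ + γ * (Real.cos θ ^ 2 - Real.sin θ ^ 2)
        + δ * (2 * (Real.sin θ * Real.cos θ))) θ := by
    intro θ
    have h1 : HasDerivAt (fun θ : ℝ => p0 * θ) (p0 * 1) θ := (hasDerivAt_id θ).const_mul p0
    have h2 := (Real.hasDerivAt_sin θ).const_mul α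
    have h3 := (Real.hasDerivAt_cos θ).const_mul β
    have h4 := ((Real.hasDerivAt_sin θ).mul (Real.hasDerivAt_cos θ)).const_mul γ
    have h5 := ((Real.hasDerivAt_sin θ).pow 2).const_mul δ
    have h6 := (((h1.add h2).sub h3).add h4).add h5
    refine h6.congr_deriv ?_
    simp only [Nat.cast_ofNat]
    ring
  have hint : ∫ θ in (0 : ℝ)..(2 * π), (p0 + α * Real.cos θ + β * Real.sin θ
      + γ * (Real.cos θ ^ 2 - Real.sin θ ^ 2) + δ * (2 * (Real.sin θ * Real.cos θ))) = 2 * π * p0 := by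
    rw [intervalIntegral.integral_eq_sub_of_hasDerivAt (fun θ _ => hd θ)]
    · simp only [Real.sin_two_pi, Real.cos_two_pi, Real.sin_zero, Real.cos_zero]
      ring
    · apply Continuous.intervalIntegrable
      fun_prop
  rw [hint, ← mul_assoc, inv_mul_cancel₀ (by positivity), one_mul]

theorem B5_cont (a : ℝ) (G0 : C2 →L[ℝ] ℝ) (A : C2 →L[ℝ] (C2 →L[ℝ] ℝ)) (x0 : C2) :
    Continuous (B5_p a G0 A x0) := by
  unfold B5_p
  have h1 : Continuous fun x : C2 => x - x0 := by fun_prop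
  have h2 : Continuous fun x : C2 => I • (x - x0) := by fun_prop
  have h3 : Continuous fun x : C2 => A (x - x0) (x - x0) := (A.continuous.comp h1).clm_apply h1
  have h4 : Continuous fun x : C2 => A (I • (x - x0)) (I • (x - x0)) := (A.continuous.comp h2).clm_apply h2
  have h5 : Continuous fun x : C2 => G0 (x - x0) := G0.continuous.comp h1
  exact (continuous_const.add h5).add (continuous_const.mul (h3.sub h4))

theorem B5_psh (a : ℝ) (G0 : C2 →L[ℝ] ℝ) (A : C2 →L[ℝ] (C2 →L[ℝ] ℝ)) (x0 : C2) (U : Set C2) :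
    PshOn U (B5_p a G0 A x0) :=
  ⟨(B5_cont a G0 A x0).continuousOn, fun x ξ _ => (B5_mean a G0 A x0 x ξ).ge⟩

/-- positive definite forms are bounded below -/
theorem B5_lower (A : C2 →L[ℝ] (C2 →L[ℝ] ℝ)) (hA : ∀ ξ : C2, ξ ≠ 0 → 0 < A ξ ξ + A (I • ξ) (I • ξ)) :
    ∃ c : ℝ, 0 < c ∧ ∀ h : C2, c * ‖h‖ ^ 2 ≤ A h h + A (I • h) (I • h) := by
  have hcont : Continuous fun x : C2 => A x x + A (I • x) (I • x) := by
    have h1 : Continuous fun x : C2 => x := continuous_id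
    have h2 : Continuous fun x : C2 => I • x := by fun_prop
    exact ((A.continuous.comp h1).clm_apply h1).add ((A.continuous.comp h2).clm_apply h2)
  have hne : (Metric.sphere (0 : C2) 1).Nonempty := ⟨((1 : ℂ), (0 : ℂ)), by simp [Prod.norm_def]⟩
  obtain ⟨y, hy, hmin⟩ := (isCompact_sphere (0 : C2) 1).exists_isMinOn hne hcont.continuousOn
  have hy1 : ‖y‖ = 1 := by simpa using hy
  have hy0 : y ≠ 0 := by
    intro h
    rw [h, norm_zero] at hy1
    exact one_ne_zero hy1.symm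
  refine ⟨A y y + A (I • y) (I • y), hA y hy0, fun h => ?_⟩
  rcases eq_or_ne h 0 with rfl | hh
  · simp
  · have hn : (0 : ℝ) < ‖h‖ := norm_pos_iff.mpr hh
    have hz : ‖h‖⁻¹ • h ∈ Metric.sphere (0 : C2) 1 := by
      simp [norm_smul, hn.ne']
    have h1 : A y y + A (I • y) (I • y) ≤
        A (‖h‖⁻¹ • h) (‖h‖⁻¹ • h) + A (I • (‖h‖⁻¹ • h)) (I • (‖h‖⁻¹ • h)) := hmin hz
    rw [smul_comm I (‖h‖⁻¹) h] at h1
    simp only [map_smul, smul_apply, smul_eq_mul] at h1
    have h2 : ‖h‖⁻¹ * (‖h‖⁻¹ * A h h) + ‖h‖⁻¹ * (‖h‖⁻¹ * A (I • h) (I • h)) =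
        (A h h + A (I • h) (I • h)) / ‖h‖ ^ 2 := by
      field_simp
    rw [h2, le_div_iff₀ (by positivity)] at h1
    exact h1

/-- second order Taylor expansion from a derivative of the derivative at one point -/
theorem B5_taylor (u : C2 → ℝ) (G : C2 → (C2 →L[ℝ] ℝ)) (x0 : C2) (r : ℝ) (hr : 0 < r)
    (hG : ∀ x ∈ Metric.ball x0 r, HasFDerivAt u (G x) x) (A : C2 →L[ℝ] (C2 →L[ℝ] ℝ)) (hA : HasFDerivAt G A x0)
    (η : ℝ) (hη : 0 < η) :
    ∃ δ : ℝ, 0 < δ ∧ δ ≤ r ∧ ∀ h : C2, ‖h‖ < δ → |u (x0 + h) - u x0 - G x0 h - (1 / 2) * A h h| ≤ η * ‖h‖ ^ 2 := by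
  have h1 := hA.isLittleO
  rw [Asymptotics.isLittleO_iff] at h1
  have h2 := h1 hη
  rw [Metric.eventually_nhds_iff] at h2
  obtain ⟨δ, hδ, hb⟩ := h2
  refine ⟨min δ r, lt_min hδ hr, min_le_right _ _, fun h hh => ?_⟩
  have hhδ : ‖h‖ < δ := hh.trans_le (min_le_left _ _)
  have hhr : ‖h‖ < r := hh.trans_le (min_le_right _ _)
  have hmem : ∀ t ∈ Set.Icc (0 : ℝ) 1, ‖t • h‖ ≤ ‖h‖ := by
    intro t ht
    rw [norm_smul, Real.norm_eq_abs, abs_of_nonneg ht.1]
    exact mul_le_of_le_one_left (norm_nonneg _) ht.2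
  have hderiv : ∀ t ∈ Set.Icc (0 : ℝ) 1, HasDerivWithinAt
      (fun t : ℝ => u (x0 + t • h) - t * G x0 h - (t ^ 2 / 2) * A h h)
      (G (x0 + t • h) h - G x0 h - t * A h h) (Set.Icc (0 : ℝ) 1) t := by
    intro t ht
    apply HasDerivAt.hasDerivWithinAt
    have hx : x0 + t • h ∈ Metric.ball x0 r := by
      rw [mem_ball_iff_norm, add_sub_cancel_left]
      exact (hmem t ht).trans_lt hhr
    have hl : HasDerivAt (fun t : ℝ => x0 + t • h) h t := by
      have := ((hasDerivAt_id t).smul_const h).const_add x0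
      simpa using this
    have h3 : HasDerivAt (fun t : ℝ => u (x0 + t • h)) (G (x0 + t • h) h) t :=
      (hG _ hx).comp_hasDerivAt t hl
    have h4 : HasDerivAt (fun t : ℝ => t * G x0 h) (1 * G x0 h) t := (hasDerivAt_id t).mul_const _
    have h5 : HasDerivAt (fun t : ℝ => (t ^ 2 / 2) * A h h) (((2 : ℕ) * t ^ (2 - 1) * 1) / 2 * A h h) t :=
      (((hasDerivAt_id t).pow 2).div_const 2).mul_const _
    refine ((h3.sub h4).sub h5).congr_deriv ?_
    simp
  have hbound : ∀ t ∈ Set.Ico (0 : ℝ) 1, ‖G (x0 + t • h) h - G x0 h - t * A h h‖ ≤ η * ‖h‖ ^ 2 := by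
    intro t ht
    have ht' : t ∈ Set.Icc (0 : ℝ) 1 := ⟨ht.1, ht.2.le⟩
    have h3 : dist (x0 + t • h) x0 < δ := by
      rw [dist_eq_norm, add_sub_cancel_left]
      exact (hmem t ht').trans_lt hhδ
    have h4 := hb h3
    rw [add_sub_cancel_left] at h4
    have h5 : G (x0 + t • h) h - G x0 h - t * A h h = (G (x0 + t • h) - G x0 - A (t • h)) h := by
      simp only [sub_apply, map_smul, smul_apply, smul_eq_mul]
    rw [h5]
    calc ‖(G (x0 + t • h) - G x0 - A (t • h)) h‖ ≤ ‖G (x0 + t • h) - G x0 - A (t • h)‖ * ‖h‖ :=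
          ContinuousLinearMap.le_opNorm _ _
      _ ≤ (η * ‖t • h‖) * ‖h‖ := by gcongr
      _ ≤ (η * ‖h‖) * ‖h‖ := by
          have := hmem t ht'
          gcongr
      _ = η * ‖h‖ ^ 2 := by ring
  have h6 := norm_image_sub_le_of_norm_deriv_le_segment_01' hderiv hbound
  rw [Real.norm_eq_abs] at h6
  have h7 : (u (x0 + (1 : ℝ) • h) - 1 * G x0 h - ((1 : ℝ) ^ 2 / 2) * A h h) -
      (u (x0 + (0 : ℝ) • h) - 0 * G x0 h - ((0 : ℝ) ^ 2 / 2) * A h h) =
      u (x0 + h) - u x0 - G x0 h - (1 / 2) * A h h := by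
    simp
    ring
  rw [h7] at h6
  exact h6

theorem B5 (h1 : A1_stmt) (h7 : A7_stmt) : B5_stmt := by
  intro u G hu hG x0 hx0 A hA
  classical
  by_contra hcon
  push Not at hcon
  obtain ⟨c, hc, hlow⟩ := B5_lower A hcon
  -- a ball around x0 in the unit ball
  obtain ⟨r0, hr0, hr0s⟩ := Metric.isOpen_iff.mp (B5_isOpen_bal 0 1) x0 hx0
  obtain ⟨r, hr, hrr0, htay⟩ := B5_taylor u G x0 r0 hr0 (fun x hx => hG x (hr0s hx)) A hA (c / 8) (by positivity)
  have hball : Metric.ball x0 r ⊆ bal 0 1 := (Metric.ball_subset_ball hrr0).trans hr0s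
  set a : ℝ := u x0 + c / 32 * r ^ 2 with ha
  set p : C2 → ℝ := B5_p a (G x0) A x0 with hp
  -- comparison outside the half ball
  have hcomp : ∀ x : C2, x ∈ Metric.ball x0 r → r / 2 ≤ ‖x - x0‖ → p x ≤ u x := by
    intro x hx hx2
    have hxr : ‖x - x0‖ < r := mem_ball_iff_norm.mp hx
    have h2 := htay (x - x0) hxr
    rw [add_sub_cancel] at h2
    have h3 := hlow (x - x0)
    have h4 := (abs_le.mp h2).1
    have h5 : p x = a + G x0 (x - x0) + (1 / 4) * (A (x - x0) (x - x0) - A (I • (x - x0)) (I • (x - x0))) := rfl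
    have h6 : (r / 2) ^ 2 ≤ ‖x - x0‖ ^ 2 := by gcongr
    rw [h5, ha]
    nlinarith [h3, h4, h6, hc]
  set w : C2 → ℝ := fun x => if x ∈ Metric.ball x0 r then max (u x) (p x) else u x with hw
  have hw1 : ∀ x ∈ Metric.ball x0 r, w x = max (u x) (p x) := fun x hx => if_pos hx
  have hw2 : ∀ x, x ∉ Metric.closedBall x0 (r / 2) → w x = u x := by
    intro x hx
    by_cases hxr : x ∈ Metric.ball x0 r
    · rw [hw1 x hxr]
      apply max_eq_left
      apply hcomp x hxr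
      rw [mem_closedBall_iff_norm, not_le] at hx
      exact hx.le
    · exact if_neg hxr
  have hle : ∀ x, u x ≤ w x := by
    intro x
    by_cases hxr : x ∈ Metric.ball x0 r
    · rw [hw1 x hxr]; exact le_max_left _ _
    · exact (if_neg hxr).ge
  have hpc : Continuous p := B5_cont _ _ _ _
  -- continuity
  have hwc : ContinuousOn w (cbal 0 1) := by
    intro x hx
    by_cases hxr : x ∈ Metric.ball x0 r
    · have h2 : ContinuousWithinAt (fun y => max (u y) (p y)) (cbal 0 1) x :=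
        (hu.1 x hx).max hpc.continuousWithinAt
      refine h2.congr_of_eventuallyEq ?_ (hw1 x hxr)
      filter_upwards [mem_nhdsWithin_of_mem_nhds (Metric.isOpen_ball.mem_nhds hxr)] with y hy
      exact hw1 y hy
    · have hx2 : x ∉ Metric.closedBall x0 (r / 2) := by
        intro h
        apply hxr
        exact Metric.closedBall_subset_ball (by linarith) h
      refine (hu.1 x hx).congr_of_eventuallyEq ?_ (hw2 x hx2)
      filter_upwards [mem_nhdsWithin_of_mem_nhds (Metric.isClosed_closedBall.isOpen_compl.mem_nhds hx2)] with y hy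
      exact hw2 y hy
  have hsub : bal 0 1 ⊆ cbal 0 1 := fun x (hx : nsq (x - 0) < 1 ^ 2) => hx.le
  have hpsh : PshOn (bal 0 1) w := by
    refine h7 (bal 0 1) (Metric.ball x0 r) u w (B5_isOpen_bal 0 1) Metric.isOpen_ball hball hu.2.1
      (hwc.mono hsub) ?_ (fun x _ => hle x) (fun x _ hx => if_neg hx)
    have hu' : PshOn (Metric.ball x0 r) u :=
      (h1 (bal 0 1) (B5_isOpen_bal 0 1) u u hu.2.1 hu.2.1).2.2.2.2.1 _ hball
    have hm := (h1 (Metric.ball x0 r) Metric.isOpen_ball u p hu' (B5_psh _ _ _ _ _)).1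
    exact (h1 (Metric.ball x0 r) Metric.isOpen_ball _ _ hm hm).2.2.2.2.2.1 w hw1
  have hfam : w ∈ Fam u 0 1 := by
    refine ⟨hwc, hpsh, fun x hx => ?_⟩
    have : x ∉ Metric.ball x0 r := by
      intro h
      have h2 : nsq (x - 0) < 1 ^ 2 := hball h
      have h3 : nsq (x - 0) = 1 ^ 2 := hx
      exact (h2.ne h3).elim
    exact (if_neg this).le
  have h8 := hu.2.2.2 w hfam x0 (hsub hx0)
  have h9 : p x0 ≤ w x0 := by
    rw [hw1 x0 (Metric.mem_ball_self hr)]; exact le_max_right _ _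
  have h10 : p x0 = a := by
    rw [hp]
    unfold B5_p
    simp
  rw [h10, ha] at h9
  have : 0 < c / 32 * r ^ 2 := by positivity
  linarith

end MAP
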