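import Pool.Agent.helper37.MA.Spec

set_option autoImplicit false

namespace Pool.Agent.helper37.MA

open Finset Pool.Agent.NK Pool.Agent.helper37.NF

theorem RAT : RAT_stmt := by
  intro n k h1 h2 h3
  obtain ⟨m, rfl⟩ : ∃ m, n = m + 2 := ⟨n - 2, by omega⟩
  obtain ⟨j, rfl⟩ : ∃ j, k = j + 1 := ⟨k - 1, by omega⟩
  obtain ⟨d, hd⟩ : ∃ d, m = j + d := ⟨m - j, by omega⟩
  subst hd
  have e1 : j + d + 2 - 2 = j + d := by omega
  have e2 : j + 1 - 1 = j := by omega
  rw [e1, e2]
  -- C(m+2,j+1) (j+1) = (m+2) C(m+1,j)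
  have a1 : (j + d + 2) * (j + d + 1).choose j = (j + d + 2).choose (j + 1) * (j + 1) :=
    Nat.add_one_mul_choose_eq (j + d + 1) j
  -- C(m+1,j) (m+1-j) = (m+1) C(m,j)
  have a2 : (j + d + 1).choose j * (d + 1) = (j + d + 1) * (j + d).choose j := by
    have := Nat.choose_mul_succ_eq (j + d) j
    have e3 : j + d + 1 - j = d + 1 := by omega
    rw [e3] at this
    linarith
  have a3 : (j + d + 2).choose (j + 1) * ((j + 1) * (d + 1)) =
      (j + d + 2) * (j + d + 1) * (j + d).choose j := by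
    calc (j + d + 2).choose (j + 1) * ((j + 1) * (d + 1))
        = ((j + d + 2).choose (j + 1) * (j + 1)) * (d + 1) := by ring
      _ = ((j + d + 2) * (j + d + 1).choose j) * (d + 1) := by rw [a1]
      _ = (j + d + 2) * ((j + d + 1).choose j * (d + 1)) := by ring
      _ = (j + d + 2) * ((j + d + 1) * (j + d).choose j) := by rw [a2]
      _ = _ := by ring
  have h4 : (j + d + 2) * (j + d + 1) ≤ 6 * ((j + 1) * (d + 1)) := by
    have b1 : j + d + 2 ≤ 3 * (j + 1) := by omega
    have b2 : j + d + 1 ≤ 2 * (d + 1) := by omega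
    calc (j + d + 2) * (j + d + 1) ≤ (3 * (j + 1)) * (2 * (d + 1)) := Nat.mul_le_mul b1 b2
      _ = _ := by ring
  have h5 : 0 < (j + 1) * (d + 1) := by positivity
  refine Nat.le_of_mul_le_mul_right ?_ h5
  calc (j + d + 2).choose (j + 1) * ((j + 1) * (d + 1))
      = (j + d + 2) * (j + d + 1) * (j + d).choose j := a3
    _ ≤ (6 * ((j + 1) * (d + 1))) * (j + d).choose j := Nat.mul_le_mul_right _ h4
    _ = 6 * (j + d).choose j * ((j + 1) * (d + 1)) := by ring

end Pool.Agent.helper37.MA
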