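import Pool.Agent.helper37.MA.Spec

set_option autoImplicit false

namespace Pool.Agent.helper37.MA

open Finset Pool.Agent.NK Pool.Agent.helper37.NF

theorem UPI2_step (a b s i : ℕ) : ff a b (i + 1 + s) (i + 1) * ((i + 1) * (b - s)) =
    ff a b (i + 1 + s) i * ((a - i) * (s + 1)) := by
  unfold ff
  have e1 : i + 1 + s - (i + 1) = s := by omega
  have e2 : i + 1 + s - i = s + 1 := by omega
  rw [e1, e2]
  have c1 : a.choose (i + 1) * (i + 1) = a.choose i * (a - i) := Nat.choose_succ_right_eq a i
  have c2 : b.choose (s + 1) * (s + 1) = b.choose s * (b - s) := Nat.choose_succ_right_eq b s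
  calc a.choose (i + 1) * b.choose s * ((i + 1) * (b - s))
      = (a.choose (i + 1) * (i + 1)) * (b.choose s * (b - s)) := by ring
    _ = (a.choose i * (a - i)) * (b.choose (s + 1) * (s + 1)) := by rw [c1, c2]
    _ = _ := by ring

theorem UPI : UPI_stmt := by
  intro a b t i hit
  obtain ⟨s, rfl⟩ : ∃ s, t = i + 1 + s := ⟨t - (i + 1), by omega⟩
  have hst := UPI2_step a b s i
  constructor
  · intro h1 h2
    by_cases hb : b ≤ s
    · -- the left side is zero
      have : ff a b (i + 1 + s) i = 0 := by
        unfold ff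
        have e2 : i + 1 + s - i = s + 1 := by omega
        rw [e2, Nat.choose_eq_zero_of_lt (by omega : b < s + 1), Nat.mul_zero]
      rw [this]
      exact Nat.zero_le _
    · push Not at hb
      obtain ⟨c, rfl⟩ : ∃ c, b = s + (c + 1) := ⟨b - s - 1, by omega⟩
      obtain ⟨d, rfl⟩ : ∃ d, a = i + d := ⟨a - i, by omega⟩
      have e3 : s + (c + 1) - s = c + 1 := by omega
      have e4 : i + d - i = d := by omega
      rw [e3, e4] at hst
      have key : (i + 1) * (c + 1) ≤ d * (s + 1) := by
        -- (d)(s+1) - (i+1)(c+1) = A T - I N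
        have k1 : 4 * (i + 1) ≤ i + d + 1 := h2
        have k2 : i + d + (s + (c + 1)) + 2 ≤ 4 * (i + 1 + s + 1) := by omega
        have k3 : 4 * (i + 1) * (i + d + (s + (c + 1)) + 2) ≤ (i + d + 1) * (4 * (i + 1 + s + 1)) :=
          Nat.mul_le_mul k1 k2
        nlinarith [k3]
      have hpos : 0 < (i + 1) * (c + 1) := by positivity
      refine Nat.le_of_mul_le_mul_right ?_ hpos
      rw [hst]
      exact Nat.mul_le_mul_left _ key
  · intro h1 h2
    by_cases hb : b < s
    · have : ff a b (i + 1 + s) (i + 1) = 0 := by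
        unfold ff
        have e2 : i + 1 + s - (i + 1) = s := by omega
        rw [e2, Nat.choose_eq_zero_of_lt hb, Nat.mul_zero]
      rw [this]
      exact Nat.zero_le _
    · push Not at hb
      by_cases ha : a < i
      · have : ff a b (i + 1 + s) (i + 1) = 0 := by
          unfold ff
          rw [Nat.choose_eq_zero_of_lt (by omega : a < i + 1), Nat.zero_mul]
        rw [this]
        exact Nat.zero_le _
      · push Not at ha
        obtain ⟨c, rfl⟩ : ∃ c, b = s + c := ⟨b - s, by omega⟩
        obtain ⟨d, rfl⟩ : ∃ d, a = i + d := ⟨a - i, by omega⟩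
        have e3 : s + c - s = c := by omega
        have e4 : i + d - i = d := by omega
        rw [e3, e4] at hst
        have hc : 0 < c := by omega
        have key : d * (s + 1) ≤ (i + 1) * c := by
          have k1 : i + d + 1 ≤ 2 * (i + 1) := h2
          have k2 : 2 * (i + 1 + s + 1) ≤ i + d + (s + c) + 2 := by omega
          have k3 : (i + d + 1) * (2 * (i + 1 + s + 1)) ≤ 2 * (i + 1) * (i + d + (s + c) + 2) :=
            Nat.mul_le_mul k1 k2
          nlinarith [k3]
        have hpos : 0 < (i + 1) * c := Nat.mul_pos (by omega) hc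
        refine Nat.le_of_mul_le_mul_right ?_ hpos
        rw [hst]
        exact Nat.mul_le_mul_left _ key

end Pool.Agent.helper37.MA
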